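import Pool.Agent.helper33.GR2.Spec

set_option autoImplicit false

open Complex Metric Set Filter Topology MeasureTheory
open MPS (om)
open PPS (pre TT fd)
open XPS (Df er dens tau)
open Pool.Agent.helper16.Multibrot

noncomputable section

namespace GR

theorem LC2_alg (x y z : ℂ) (hx : ‖x - 1‖ ≤ 1 / 64) (hy : ‖y - 1‖ ≤ 1 / 32) (hz : ‖z - 1‖ ≤ 1 / 31) :
    ‖x * y * z - 1‖ ≤ 1 / 4 := by
  obtain ⟨a, ha⟩ : ∃ a, a = x - 1 := ⟨_, rfl⟩
  obtain ⟨b, hb⟩ : ∃ b, b = y - 1 := ⟨_, rfl⟩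
  obtain ⟨d, hd⟩ : ∃ d, d = z - 1 := ⟨_, rfl⟩
  rw [← ha] at hx
  rw [← hb] at hy
  rw [← hd] at hz
  have e : x * y * z - 1 = a + b + d + a * b + a * d + b * d + a * b * d := by
    rw [ha, hb, hd]; ring
  rw [e]
  have hab : ‖a * b‖ ≤ 1 / 64 * (1 / 32) := by
    rw [norm_mul]; gcongr
  have had : ‖a * d‖ ≤ 1 / 64 * (1 / 31) := by
    rw [norm_mul]; gcongr
  have hbd : ‖b * d‖ ≤ 1 / 32 * (1 / 31) := by
    rw [norm_mul]; gcongr
  have habd : ‖a * b * d‖ ≤ 1 / 64 * (1 / 32) * (1 / 31) := by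
    rw [norm_mul]; gcongr
  have h1 := norm_add_le (a + b + d + a * b + a * d + b * d) (a * b * d)
  have h2 := norm_add_le (a + b + d + a * b + a * d) (b * d)
  have h3 := norm_add_le (a + b + d + a * b) (a * d)
  have h4 := norm_add_le (a + b + d) (a * b)
  have h5 := norm_add_le (a + b) d
  have h6 := norm_add_le a b
  linarith

theorem LC2_SS (n : ℕ) (c : ℂ) (p : ℕ) (hp : 1 ≤ p) (hA : A n c 1 = 1) : 1 ≤ SS n c p := by
  have h1 : ∀ i ∈ Finset.Icc 1 p, 0 ≤ ∑ j ∈ Finset.Icc 1 p, ‖A n c j‖ / ‖A n c i‖ :=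
    fun i _ => Finset.sum_nonneg fun j _ => by positivity
  have hmem : 1 ∈ Finset.Icc 1 p := Finset.mem_Icc.2 ⟨le_refl _, hp⟩
  have h2 := Finset.single_le_sum h1 hmem
  have h3 := Finset.single_le_sum (f := fun j => ‖A n c j‖ / ‖A n c 1‖)
    (fun j _ => by positivity) hmem
  have h4 : ‖A n c 1‖ / ‖A n c 1‖ = 1 := by rw [hA, norm_one, div_one]
  have h5 : ‖A n c 1‖ / ‖A n c 1‖ ≤ ∑ j ∈ Finset.Icc 1 p, ‖A n c j‖ / ‖A n c 1‖ := h3
  rw [h4] at h5
  exact h5.trans h2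

theorem LC2 (hKFN : KFN_stmt) (hKUB : KUB_stmt) (hBCZ : BCZ_stmt) (hCEL : CEL_stmt)
    (hNAT : NAT_stmt) : LC2_stmt := by
  intro C D n c p q G m ρ hC hD hR hT hX hm hNu hρ hZρ w hw1 hw2
  obtain ⟨-, -, -, -, -, -, hA1, -, -, -, hRR⟩ := hNAT n c hR.hn
  obtain ⟨hR0, hR2, hX1, hRX, hAne, -, hxc⟩ := hRR p q hR
  have hC1 : 1 ≤ C := hC.1
  have hD1 : 1 ≤ D := hD.1
  have hC0 : 0 < C := by linarith
  have hp1 : 1 ≤ p := by have := hR.q1; have := hR.qp; omega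
  have hSS := LC2_SS n c p hp1 hA1
  obtain ⟨K, hKd, hK0, hKa, hKw⟩ := hKFN C n c p q G m hC hR hT (by linarith) hm hNu
  obtain ⟨-, -, hlam⟩ := hCEL C n c p q G hC hR hT (by linarith)
  obtain ⟨M, hM⟩ : ∃ M, M = 4 * C * (1 + D) * SS n c p := ⟨_, rfl⟩
  have hM1 : 1 ≤ M := by
    rw [hM]
    have h1 : 1 ≤ 4 * C * (1 + D) := by nlinarith
    nlinarith
  obtain ⟨S, hS⟩ : ∃ S, S = R n c q := ⟨_, rfl⟩
  rw [← hS] at hR0 hR2 hRX hKd hK0 hKw hρ
  rw [← hM] at hρ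
  have hlogM : 0 ≤ Real.log (2 * M) := Real.log_nonneg (by linarith)
  obtain ⟨Q, hQ⟩ : ∃ Q, Q = 1 + Real.log (2 * M) := ⟨_, rfl⟩
  have hQ1 : 1 ≤ Q := by rw [hQ]; linarith
  rw [← hQ] at hρ
  have hρ0 : 0 < ρ := by rw [hρ]; positivity
  obtain ⟨r, hr⟩ : ∃ r, r = S / (16 * C) := ⟨_, rfl⟩
  have hr0 : 0 < r := by rw [hr]; positivity
  have hr8 : S / (8 * C) = 2 * r := by rw [hr]; field_simp; norm_num
  have hZ : ‖Z n c p‖ ≤ r / 8 := by
    have h1 : ‖Z n c p‖ * (128 * C) ≤ S := by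
      rw [hRX]
      nlinarith [norm_nonneg (Z n c p)]
    rw [hr, div_div, le_div_iff₀ (by positivity)]
    calc ‖Z n c p‖ * (16 * C * 8) = ‖Z n c p‖ * (128 * C) := by ring
      _ ≤ S := h1
  rw [hr8] at hKd hK0 hKw
  have hsub : closedBall (Z n c p) r ⊆ ball 0 (2 * r) := by
    intro u hu
    rw [mem_closedBall, dist_eq_norm] at hu
    rw [mem_ball_zero_iff]
    have h1 : ‖u‖ ≤ ‖u - Z n c p‖ + ‖Z n c p‖ := by
      have := norm_add_le (u - Z n c p) (Z n c p)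
      rwa [sub_add_cancel] at this
    linarith
  have hbd : ∀ u ∈ closedBall (Z n c p) r, ‖K u‖ ≤ M := by
    intro u hu
    have hcl : closure (ball (Z n c p) r) = closedBall (Z n c p) r := closure_ball _ hr0.ne'
    refine Complex.norm_le_of_forall_mem_frontier_norm_le (U := ball (Z n c p) r) isBounded_ball
      (DifferentiableOn.diffContOnCl ?_) ?_ (by rw [hcl]; exact hu)
    · rw [hcl]
      exact hKd.mono hsub
    · intro v hv
      rw [frontier_ball _ hr0.ne', mem_sphere, dist_eq_norm] at hv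
      have hvb : v ∈ ball (0 : ℂ) (2 * r) := hsub (by rw [mem_closedBall, dist_eq_norm, hv])
      have hvne : v ≠ Z n c p := by
        intro h0
        rw [h0, sub_self, norm_zero] at hv
        exact hr0.ne hv
      rw [hKw v hvb hvne, hM]
      exact hKUB C D n c p q G m hC hD hR hT hX hm v (by rw [hv, hr, hS])
  have hxc1 : ‖xc n c p q (p - m) - 1‖ ≤ 1 / 64 := by
    refine (hxc (p - m)).trans (hlam.trans ?_)
    rw [div_le_iff₀ (by linarith)]
    linarith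
  have hKhalf : 1 / 2 ≤ ‖K (Z n c p)‖ := by
    rw [hKa]
    have h1 : ‖(1 : ℂ)‖ ≤ ‖xc n c p q (p - m)‖ + ‖xc n c p q (p - m) - 1‖ := by
      calc ‖(1 : ℂ)‖ = ‖xc n c p q (p - m) - (xc n c p q (p - m) - 1)‖ := by ring_nf
        _ ≤ _ := norm_sub_le _ _
    rw [norm_one] at h1
    linarith
  have hwZ : ‖w - Z n c p‖ ≤ 2 * ρ := by
    have := norm_sub_le w (Z n c p)
    linarith
  have hwZ2 : 31 / 64 * ρ ≤ ‖w - Z n c p‖ := by
    have := norm_sub_norm_le w (Z n c p)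
    linarith
  have hwne : w - Z n c p ≠ 0 := by
    intro h0
    rw [h0, norm_zero] at hwZ2
    linarith
  have h2ρ : 2 * ρ = r / (256 * Q) := by
    rw [hρ, hr]
    field_simp
    norm_num
  have hB := hBCZ K (Z n c p) r M hr0 hM1 (hKd.mono (ball_subset_closedBall.trans hsub))
    (fun u hu => ⟨hK0 u (hsub (ball_subset_closedBall hu)), hbd u (ball_subset_closedBall hu)⟩)
    hKhalf w (by rw [← hQ, ← h2ρ]; exact hwZ)
  have hwb : w ∈ ball (0 : ℂ) (2 * r) := by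
    rw [mem_ball_zero_iff]
    have h1 : 2 * ρ ≤ r := by
      rw [h2ρ]
      exact div_le_self hr0.le (by linarith)
    linarith
  have hK1 := hKw w hwb (sub_ne_zero.1 hwne)
  have hKa0 : K (Z n c p) ≠ 0 := by
    intro h0
    rw [h0, norm_zero] at hKhalf
    linarith
  have hAp : A n c p ≠ 0 := hAne p hp1 (by omega)
  have hw0 : w ≠ 0 := by
    intro h0
    rw [h0, norm_zero] at hw1
    linarith
  have hz : ‖w / (w - Z n c p) - 1‖ ≤ 1 / 31 := by
    have e : w / (w - Z n c p) - 1 = Z n c p / (w - Z n c p) := by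
      field_simp
      ring
    rw [e, norm_div, div_le_iff₀ (norm_pos_iff.2 hwne)]
    linarith
  obtain ⟨t, ht⟩ : ∃ t, t = tau (B n c p q) G m w := ⟨_, rfl⟩
  rw [← ht] at hK1 ⊢
  have key : t - (A n c p)⁻¹ * w ^ (-1 : ℤ) = (A n c p)⁻¹ * w ^ (-1 : ℤ) *
      (xc n c p q (p - m) * (K w / K (Z n c p)) * (w / (w - Z n c p)) - 1) := by
    rw [hKa] at hKa0 ⊢
    have e1 : xc n c p q (p - m) * (K w / xc n c p q (p - m)) = K w := by
      field_simp
    rw [e1, hK1, zpow_neg_one]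
    field_simp
  rw [key, norm_mul, mul_comm]
  refine mul_le_mul_of_nonneg_right ?_ (norm_nonneg _)
  exact LC2_alg _ _ _ hxc1 hB hz

end GR
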